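import Mathlib
import Pool.Agent.MP_3bdc7b_an.ca.Amen

namespace Pool.Agent.Results.MP_3bdc7b_an.AmenableGapSofic

open Pool.Agent.MP_3bdc7b_an Pool.Agent.MP_3bdc7b_an.ca

/-- Over a sofic group, every subshift that is strongly irreducible with respect to a finite
subset of an amenable subgroup is surjunctive. -/
theorem result {G : Type*} [Group G] (hG : IsSofic G) {A : Type*} [Finite A]
    [TopologicalSpace A] [DiscreteTopology A] (X : Set (G → A)) (hc : IsClosed X)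
    (hs : ∀ g : G, ∀ x ∈ X, shift g x ∈ X) (H : Subgroup G) (hH : IsAmenable H) (Δ : Finset G)
    (hΔH : ∀ d ∈ Δ, d ∈ H)
    (hΔ : ∀ x₁ ∈ X, ∀ x₂ ∈ X, ∀ Ω₁ Ω₂ : Finset G, (∀ a ∈ Ω₁, ∀ d ∈ Δ, a * d ∉ Ω₂) →
      ∃ x ∈ X, (∀ g ∈ Ω₁, x g = x₁ g) ∧ ∀ g ∈ Ω₂, x g = x₂ g) : Surjunctive X :=
  surj_of_amenable_gap hG hc hs hH hΔH hΔ

end Pool.Agent.Results.MP_3bdc7b_an.AmenableGapSofic
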