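import Mathlib
import Pool.Agent.MP_3bdc7b_an.ca.Examples

namespace Pool.Agent.Results.MP_3bdc7b_an.InsertionCoamenableFree

open Pool.Agent.MP_3bdc7b_an Pool.Agent.MP_3bdc7b_an.ca

/-- Every strongly irreducible subshift with approximately continuous insertion over a group that
is locally virtually free up to an amenable coset space is surjunctive. -/
theorem result {G : Type*} [Group G] (hG : CoamenablyFree G) {A : Type*} [Finite A]
    [TopologicalSpace A] [DiscreteTopology A] (X : Set (G → A)) (hc : IsClosed X)
    (hs : ∀ g : G, ∀ x ∈ X, shift g x ∈ X) (hSI : StronglyIrreducible X)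
    (hI : ApproxInsertion X) : Surjunctive X :=
  surj_of_insertion hc hs hI (hasModels_of_coamenablyFree hG hs hSI)

end Pool.Agent.Results.MP_3bdc7b_an.InsertionCoamenableFree
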