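import Mathlib
import Pool.Agent.MP_3bdc7b_an.ca.Examples

namespace Pool.Agent.Results.MP_3bdc7b_an.InsertionSoficPeriodic

open Pool.Agent.MP_3bdc7b_an Pool.Agent.MP_3bdc7b_an.ca

/-- Every subshift with approximately continuous insertion and a finite orbit over a sofic group
is surjunctive. -/
theorem result {G : Type*} [Group G] (hG : IsSofic G) {A : Type*} [Finite A]
    [TopologicalSpace A] [DiscreteTopology A] (X : Set (G → A)) (hc : IsClosed X)
    (hs : ∀ g : G, ∀ x ∈ X, shift g x ∈ X) (hI : ApproxInsertion X)
    (hp : ∃ x ∈ X, (Set.range fun g : G => shift g x).Finite) : Surjunctive X :=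
  surj_of_insertion hc hs hI fun _ => hasModels_of_sofic hG hs hp.choose_spec.1 hp.choose_spec.2

end Pool.Agent.Results.MP_3bdc7b_an.InsertionSoficPeriodic
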