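import Mathlib
import Pool.Agent.MP_3bdc7b_an.Main

namespace Pool.Agent.Results.MP_3bdc7b_an.SoficVirtuallyFree

open Pool.Agent.MP_3bdc7b_an

/-- Every strongly irreducible sofic subshift over a locally virtually free group is
surjunctive. -/
theorem result {G : Type*} [Group G] (hG : LocallyVirtuallyFree G) {A : Type*} [Finite A]
    [TopologicalSpace A] [DiscreteTopology A] (X : Set (G → A)) (hX : IsSoficShift X)
    (hSI : StronglyIrreducible X) : Surjunctive X :=
  surjunctive hG X hX hSI

end Pool.Agent.Results.MP_3bdc7b_an.SoficVirtuallyFree
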